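import Pool.Agent.H92R3.CxO

set_option autoImplicit false

open MeasureTheory Set Filter Topology

namespace Pool.Agent.Results.MP_28492a_gt.Cancellation

/-- A geometric body of `ℝⁿ`: a bounded, regular open, Jordan measurable set. The boundary of a bounded set is compact,
so it has Jordan measure zero exactly when it has Lebesgue measure zero. -/
def GeometricBody {n : ℕ} (A : Set (EuclideanSpace ℝ (Fin n))) : Prop :=
  Bornology.IsBounded A ∧ interior (closure A) = A ∧ volume (frontier A) = 0

/-- The join of finitely many open sets: the interior of the closure of the union. -/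
def Join {n k : ℕ} (P : Fin k → Set (EuclideanSpace ℝ (Fin n))) : Set (EuclideanSpace ℝ (Fin n)) :=
  interior (closure (⋃ i, P i))

/-- Equidecomposable as geometric bodies, using all isometries of `ℝⁿ`. -/
def EquidecBodies {n : ℕ} (A B : Set (EuclideanSpace ℝ (Fin n))) : Prop :=
  ∃ (m : ℕ) (P : Fin m → Set (EuclideanSpace ℝ (Fin n)))
    (g : Fin m → EuclideanSpace ℝ (Fin n) ≃ᵢ EuclideanSpace ℝ (Fin n)),
    (∀ i, GeometricBody (P i)) ∧
    (∀ i j, i ≠ j → Disjoint (P i) (P j)) ∧ A = Join P ∧
    (∀ i j, i ≠ j → Disjoint (g i '' P i) (g j '' P j)) ∧ B = Join fun i => g i '' P i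

/-- `C` is a join of `k` pairwise disjoint isometric copies of `A`, i.e. a representative of `kA`. -/
def IsMultiple {n : ℕ} (k : ℕ) (A C : Set (EuclideanSpace ℝ (Fin n))) : Prop :=
  ∃ φ : Fin k → EuclideanSpace ℝ (Fin n) ≃ᵢ EuclideanSpace ℝ (Fin n),
    (∀ i j, i ≠ j → Disjoint (φ i '' A) (φ j '' A)) ∧ C = Join fun i => φ i '' A

open Pool.Agent.H92R3.Canc

noncomputable section

variable {n : ℕ}

theorem body_open {A : Set (E n)} (h : GeometricBody A) : IsOpen A := by
  rw [← h.2.1]
  exact isOpen_interior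

theorem mem_image_iso (g : E n ≃ᵢ E n) (A : Set (E n)) (x : E n) : x ∈ g '' A ↔ g.symm x ∈ A := by
  constructor
  · rintro ⟨y, hy, rfl⟩
    simpa using hy
  · intro h
    exact ⟨g.symm x, h, by simp⟩

theorem body_image {A : Set (E n)} (h : GeometricBody A) (g : E n ≃ᵢ E n) : GeometricBody (g '' A) := by
  refine ⟨?_, ?_, ?_⟩
  · exact g.isometry.lipschitz.isBounded_image h.1
  · have h1 : closure (g '' A) = g '' closure A := (g.toHomeomorph.image_closure A).symm
    have h2 : interior (g '' closure A) = g '' interior (closure A) := (g.toHomeomorph.image_interior _).symm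
    rw [h1, h2, h.2.1]
  · have h1 : frontier (g '' A) = g '' frontier A := (g.toHomeomorph.image_frontier A).symm
    have h2 : g '' frontier A = g.symm ⁻¹' frontier A := by
      ext x
      exact mem_image_iso g _ x
    rw [h1, h2]
    exact (mp_iso g.symm).quasiMeasurePreserving.preimage_null h.2.2

open Classical in
def ind (A : Set (E n)) (x : E n) : ℤ := if x ∈ A then 1 else 0

theorem ind_nonneg (A : Set (E n)) (x : E n) : 0 ≤ ind A x := by
  unfold ind
  split_ifs <;> norm_num

theorem ind_image (A : Set (E n)) (g : E n ≃ᵢ E n) (x : E n) : ind (g '' A) x = ind A (g.symm x) := by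
  unfold ind
  by_cases h : x ∈ g '' A
  · rw [if_pos h, if_pos ((mem_image_iso g A x).1 h)]
  · rw [if_neg h, if_neg fun h' => h ((mem_image_iso g A x).2 h')]

theorem J_ind {A : Set (E n)} (h : GeometricBody A) : J (ind A) := by
  refine JD.toJ ⟨?_, ?_, ?_⟩
  · obtain ⟨R, hR⟩ := h.1.exists_norm_le
    refine ⟨R, fun x hx => hR x ?_⟩
    by_contra hc
    exact hx (by simp [ind, hc])
  · refine (Set.toFinite ({0, 1} : Set ℤ)).subset ?_
    rintro _ ⟨x, rfl⟩
    unfold ind
    split_ifs <;> simp
  · exact (ND.set h.2.2).map (fun p => @ite ℤ p (Classical.propDecidable p) 1 0)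

/-- membership in the join, off the boundaries -/
theorem mem_join_iff {k : ℕ} {P : Fin k → Set (E n)} (hP : ∀ i, GeometricBody (P i)) :
    ∀ᵐ x, x ∈ Join P ↔ ∃ i, x ∈ P i := by
  have h1 : ∀ᵐ x, ∀ i, x ∉ frontier (P i) := eventually_countable_forall.2 fun i => by
    rw [ae_iff]
    simpa using (hP i).2.2
  filter_upwards [h1] with x hx
  constructor
  · intro h
    have h2 : x ∈ closure (⋃ i, P i) := interior_subset h
    rw [closure_iUnion_of_finite, mem_iUnion] at h2
    obtain ⟨i, hi⟩ := h2
    refine ⟨i, ?_⟩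
    by_contra hc
    apply hx i
    rw [frontier, (body_open (hP i)).interior_eq]
    exact ⟨hi, hc⟩
  · rintro ⟨i, hi⟩
    have ho : IsOpen (⋃ i, P i) := isOpen_iUnion fun i => body_open (hP i)
    exact interior_maximal subset_closure ho (mem_iUnion.2 ⟨i, hi⟩)

theorem ind_join {k : ℕ} {P : Fin k → Set (E n)} (hP : ∀ i, GeometricBody (P i))
    (hd : ∀ i j, i ≠ j → Disjoint (P i) (P j)) : ∀ᵐ x, ind (Join P) x = ∑ i, ind (P i) x := by
  filter_upwards [mem_join_iff hP] with x hx
  by_cases h : ∃ i, x ∈ P i
  · obtain ⟨i, hi⟩ := h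
    rw [Finset.sum_eq_single i]
    · simp [ind, hi, hx.2 ⟨i, hi⟩]
    · intro j _ hj
      have : x ∉ P j := fun h2 => Set.disjoint_left.1 (hd j i hj) h2 hi
      simp [ind, this]
    · simp
  · have h1 : x ∉ Join P := fun h2 => h (hx.1 h2)
    push Not at h
    simp [ind, h1, h]

theorem equidec_to_eqd {C D : Set (E n)} (h : EquidecBodies C D) : Eqd (ind C) (ind D) := by
  obtain ⟨k, P, g, hP, hd, rfl, hd', rfl⟩ := h
  refine ⟨Fin k, inferInstance, fun i => ind (P i), g, fun i => J_ind (hP i), fun i x => ind_nonneg _ _,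
    ind_join hP hd, ?_⟩
  filter_upwards [ind_join (fun i => body_image (hP i) (g i)) hd'] with x hx
  rw [hx]
  apply Finset.sum_congr rfl
  intro i _
  exact ind_image _ _ _

theorem multiple_to_eqd {A C : Set (E n)} (hA : GeometricBody A) {k : ℕ} (h : IsMultiple k A C) :
    Eqd (fun x => k * ind A x) (ind C) := by
  obtain ⟨φ, hd, rfl⟩ := h
  have h1 : Eqd (fun x => ∑ i : Fin k, ind A x) (fun x => ∑ i : Fin k, ind A ((φ i).symm x)) :=
    Eqd.sum Finset.univ fun i _ => Eqd.iso (J_ind hA) (ind_nonneg A) (φ i)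
  refine h1.congr (Eventually.of_forall fun x => ?_) ?_
  · simp
  · filter_upwards [ind_join (fun i => body_image hA (φ i)) hd] with x hx
    rw [hx]
    apply Finset.sum_congr rfl
    intro i _
    exact ind_image _ _ _

theorem open_null_empty {U : Set (E n)} (ho : IsOpen U) (h : ∀ᵐ x, x ∉ U) : U = ∅ := by
  by_contra hne
  have h1 := ho.measure_pos volume (Set.nonempty_iff_ne_empty.2 hne)
  have h2 : volume U = 0 := by
    rw [ae_iff] at h
    simpa using h
  exact h1.ne' h2

theorem regular_le {U V : Set (E n)} (hU : IsOpen U) (hV : interior (closure V) = V)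
    (h : ∀ᵐ x, x ∈ U → x ∈ V) : U ⊆ V := by
  have h1 : U \ closure V = ∅ := by
    refine open_null_empty (hU.sdiff isClosed_closure) ?_
    filter_upwards [h] with x hx hc
    exact hc.2 (subset_closure (hx hc.1))
  have h2 : U ⊆ closure V := by
    rw [← Set.sdiff_eq_empty]
    exact h1
  rw [← hV]
  exact interior_maximal h2 hU

theorem interior_closure_idem' (O : Set (E n)) :
    interior (closure (interior (closure O))) = interior (closure O) := by
  apply subset_antisymm
  · exact interior_mono (closure_minimal interior_subset isClosed_closure)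
  · exact interior_maximal subset_closure isOpen_interior

/-- pieces from functions -/
theorem pieces {m : ℕ} {A : Set (E n)} (hA : GeometricBody A) {P : Fin m → Set (E n)}
    (hP : ∀ i, GeometricBody (P i)) {F : Fin m → E n → ℤ} (hF : ∀ i x, 0 ≤ F i x)
    (hPF : ∀ i, ∀ᵐ x, x ∈ P i ↔ 1 ≤ F i x) (hsum : ∀ᵐ x, ind A x = ∑ i, F i x) :
    (∀ i j, i ≠ j → Disjoint (P i) (P j)) ∧ A = Join P := by
  have hall : ∀ᵐ x, ∀ i, x ∈ P i ↔ 1 ≤ F i x := eventually_countable_forall.2 hPF
  constructor
  · intro i j hij
    rw [Set.disjoint_iff_inter_eq_empty]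
    refine open_null_empty ((body_open (hP i)).inter (body_open (hP j))) ?_
    filter_upwards [hall, hsum] with x a b hc
    have h1 := (a i).1 hc.1
    have h2 := (a j).1 hc.2
    have h3 : F i x + F j x ≤ ∑ i, F i x := by
      rw [← Finset.sum_pair (f := fun l => F l x) hij]
      exact Finset.sum_le_sum_of_subset_of_nonneg (Finset.subset_univ _) fun l _ _ => hF l x
    have h4 : ind A x ≤ 1 := by
      unfold ind
      split_ifs <;> norm_num
    omega
  · have hiff : ∀ᵐ x, x ∈ A ↔ x ∈ Join P := by
      filter_upwards [hall, hsum, mem_join_iff hP] with x a b c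
      rw [c]
      constructor
      · intro hx
        have h1 : ∑ i, F i x ≠ 0 := by
          rw [← b]
          simp [ind, hx]
        obtain ⟨i, _, hi⟩ := Finset.exists_ne_zero_of_sum_ne_zero h1
        refine ⟨i, (a i).2 ?_⟩
        have := hF i x
        omega
      · rintro ⟨i, hi⟩
        have h1 := (a i).1 hi
        have h2 : F i x ≤ ∑ i, F i x := Finset.single_le_sum (f := fun i => F i x) (fun l _ => hF l x) (Finset.mem_univ i)
        by_contra hx
        have h3 : ind A x = 0 := by simp [ind, hx]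
        omega
    apply subset_antisymm
    · exact regular_le (body_open hA) (interior_closure_idem' _) (hiff.mono fun x h => h.1)
    · exact regular_le isOpen_interior hA.2.1 (hiff.mono fun x h => h.2)

theorem eqd_to_equidec {A B : Set (E n)} (hA : GeometricBody A) (hB : GeometricBody B)
    (h : Eqd (ind A) (ind B)) : EquidecBodies A B := by
  obtain ⟨ι, _, f0, g0, hJ0, hf00, h3, h4⟩ := h
  let e := Fintype.equivFin ι
  let m := Fintype.card ι
  let f : Fin m → E n → ℤ := fun l => f0 (e.symm l)
  let g : Fin m → E n ≃ᵢ E n := fun l => g0 (e.symm l)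
  have hf0 : ∀ l x, 0 ≤ f l x := fun l x => hf00 _ _
  have hsA : ∀ᵐ x, ind A x = ∑ l, f l x := by
    filter_upwards [h3] with x hx
    rw [hx]
    exact (Equiv.sum_comp e.symm fun i => f0 i x).symm
  have hsB : ∀ᵐ x, ind B x = ∑ l, f l ((g l).symm x) := by
    filter_upwards [h4] with x hx
    rw [hx]
    exact (Equiv.sum_comp e.symm fun i => f0 i ((g0 i).symm x)).symm
  choose f' hf' hae using fun l => hJ0 (e.symm l)
  let O : Fin m → Set (E n) := fun l => {x | x ∉ disc (f' l) ∧ 1 ≤ f' l x}
  have hO : ∀ l, IsOpen (O l) := by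
    intro l
    rw [isOpen_iff_eventually]
    rintro x ⟨h1, h2⟩
    filter_upwards [(isClosed_disc (f' l)).isOpen_compl.mem_nhds h1, not_disc.1 h1] with y a b
    exact ⟨a, by rw [b]; exact h2⟩
  have hclO : ∀ l x, x ∈ closure (O l) → x ∉ disc (f' l) → x ∈ O l := by
    intro l x hx hd
    rw [mem_closure_iff_frequently] at hx
    obtain ⟨y, hy1, hy2⟩ := (hx.and_eventually (not_disc.1 hd)).exists
    exact ⟨hd, by rw [← hy2]; exact hy1.2⟩
  let P : Fin m → Set (E n) := fun l => interior (closure (O l))
  have hOP : ∀ l, O l ⊆ P l := fun l => interior_maximal subset_closure (hO l)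
  have hP : ∀ l, GeometricBody (P l) := by
    intro l
    refine ⟨?_, interior_closure_idem' _, ?_⟩
    · obtain ⟨R, hR⟩ := (hf' l).1
      have hb : Bornology.IsBounded (O l) := by
        refine (Metric.isBounded_closedBall (x := (0 : E n)) (r := R)).subset fun x hx => ?_
        rw [mem_closedBall_zero_iff]
        refine hR x ?_
        have := hx.2
        omega
      exact hb.closure.subset interior_subset
    · refine measure_mono_null (fun x hx => ?_) (hf' l).2.2
      by_contra hd
      have h1 : x ∈ closure (O l) := closure_minimal interior_subset isClosed_closure hx.1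
      apply hx.2
      rw [isOpen_interior.interior_eq]
      exact hOP l (hclO l x h1 hd)
  have hPF : ∀ l, ∀ᵐ x, x ∈ P l ↔ 1 ≤ f l x := by
    intro l
    filter_upwards [hae l, (hf' l).2.2.ae] with x a b
    have hd := not_disc.2 b
    constructor
    · intro hx
      have := (hclO l x (interior_subset hx) hd).2
      rw [← a] at this
      exact this
    · intro hx
      apply hOP l
      refine ⟨hd, ?_⟩
      rw [← a]
      exact hx
  have hgPF : ∀ l, ∀ᵐ x, x ∈ g l '' P l ↔ 1 ≤ f l ((g l).symm x) := by
    intro l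
    filter_upwards [ae_iso (g l).symm (hPF l)] with x hx
    rw [← hx]
    exact mem_image_iso _ _ _
  obtain ⟨a1, a2⟩ := pieces hA hP hf0 hPF hsA
  obtain ⟨b1, b2⟩ := pieces hB (fun l => body_image (hP l) (g l)) (fun l x => hf0 l _) hgPF hsB
  exact ⟨m, P, g, hP, a1, a2, b1, b2⟩

/-- **The cancellation law for equidecomposability of geometric bodies holds in every `ℝⁿ`, `n ≥ 1`**: if `kA ∼ kB`
for some `k ≥ 1`, then `A ∼ B`. -/
theorem result : ∀ n : ℕ, 1 ≤ n → ∀ k : ℕ, 1 ≤ k → ∀ A B : Set (EuclideanSpace ℝ (Fin n)),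
    GeometricBody A → GeometricBody B → ∀ C D : Set (EuclideanSpace ℝ (Fin n)),
    IsMultiple k A C → IsMultiple k B D → EquidecBodies C D → EquidecBodies A B := by
  intro n hn k hk A B hA hB C D hC hD h
  have h1 : Eqd (fun x => k * ind A x) (fun x => k * ind B x) :=
    ((multiple_to_eqd hA hC).trans (equidec_to_eqd h)).trans (multiple_to_eqd hB hD).symm
  exact eqd_to_equidec hA hB
    (cancel_fun ⟨0, hn⟩ (J_ind hA) (J_ind hB) (ind_nonneg A) (ind_nonneg B) k hk h1)

end

end Pool.Agent.Results.MP_28492a_gt.Cancellation
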